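import Pool.Agent.Run7.h426.DOM.Iface

/-!
# Piece L4 of project DOM (helper426)
-/

set_option autoImplicit false

namespace Run7.h683.DOM

open Finset Run7.h426.DOM

/-- A vertex of type (2,0). -/
theorem t_L4 : S_L4 := by
  classical
  intro I E hP hL hz hlin hv
  obtain ⟨a, h4, h3⟩ := hv
  obtain ⟨g1, g2, h12, hset⟩ := card_eq_two.1 (show (I.filter (fun i => a ∈ E i ∧ (E i).card = 4)).card = 2 from h4)
  have h3' : I.filter (fun i => a ∈ E i ∧ (E i).card = 3) = ∅ := card_eq_zero.1 h3
  have m1 : g1 ∈ I ∧ a ∈ E g1 ∧ (E g1).card = 4 := by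
    have : g1 ∈ I.filter (fun i => a ∈ E i ∧ (E i).card = 4) := by rw [hset]; simp
    exact mem_filter.1 this
  have m2 : g2 ∈ I ∧ a ∈ E g2 ∧ (E g2).card = 4 := by
    have : g2 ∈ I.filter (fun i => a ∈ E i ∧ (E i).card = 4) := by rw [hset]; simp
    exact mem_filter.1 this
  have hca : ∀ i ∈ I, a ∈ E i → (E i).card = 4 := by
    intro i hi hai
    rcases hz i hi with h | h
    · exfalso
      have : i ∈ I.filter (fun i => a ∈ E i ∧ (E i).card = 3) := mem_filter.2 ⟨hi, hai, h⟩
      rw [h3'] at this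
      exact absurd this (notMem_empty _)
    · exact h
  have haf : I.filter (fun i => a ∈ E i) = {g1, g2} := by
    rw [← hset]
    ext i
    simp only [mem_filter]
    exact ⟨fun h => ⟨h.1, h.2, hca i h.1 h.2⟩, fun h => ⟨h.1, h.2.1⟩⟩
  have haU : a ∈ U I E := mem_biUnion.2 ⟨g1, m1.1, m1.2.1⟩
  by_cases hsec : ∃ g ∈ ({g1, g2} : Finset ℕ), ∃ x ∈ (E g).erase a, ∃ j ∈ I, j ≠ g ∧ x ∈ E j
  · obtain ⟨g, hg, x, hx, j, hj, hjg, hxj⟩ := hsec
    have hgm : g ∈ I ∧ a ∈ E g ∧ (E g).card = 4 := by
      rcases mem_insert.1 hg with h | h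
      · rw [h]; exact m1
      · rw [mem_singleton.1 h]; exact m2
    refine shrink (s := 1) (g := 0) (c := 0) a haU ?_ ?_
    · rw [haf, sum_pair h12, sum_pair h12, m1.2.2, m2.2.2]
      decide
    · refine hL I (sh a E) (U_sh_lt haU) ?_ hlin.sh ?_
      · intro i hi
        show ((E i).erase a).card = 3 ∨ ((E i).erase a).card = 4
        by_cases hai : a ∈ E i
        · rw [card_erase_of_mem hai, hca i hi hai]
          exact Or.inl rfl
        · rw [erase_eq_of_notMem hai]
          exact hz i hi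
      · refine Or.inr ⟨g, hgm.1, ?_, j, hj, fun h => hjg h.symm, x, hx, ?_⟩
        · show ((E g).erase a).card = 3
          rw [card_erase_of_mem hgm.2.1, hgm.2.2]
        · exact mem_erase.2 ⟨(mem_erase.1 hx).1, hxj⟩
  · push Not at hsec
    have hdis : Disjoint ((E g1).erase a) ((E g2).erase a) := by
      rw [disjoint_left]
      intro x h1 h2
      exact hsec g1 (by simp) x h1 g2 m2.1 h12.symm (mem_of_mem_erase h2)
    have hcard : ((E g1).erase a ∪ (E g2).erase a).card = 6 := by
      rw [card_union_of_disjoint hdis, card_erase_of_mem m1.2.1, card_erase_of_mem m2.2.1, m1.2.2, m2.2.2]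
    refine take (s := 0) (g := 1) a ((E g1).erase a ∪ (E g2).erase a) haU ?_ ?_ ?_ ?_ ?_
    · simp
    · intro x hx
      rcases mem_union.1 hx with h | h
      · exact mem_biUnion.2 ⟨g1, m1.1, mem_of_mem_erase h⟩
      · exact mem_biUnion.2 ⟨g2, m2.1, mem_of_mem_erase h⟩
    · intro x hx i hi hxi
      rcases mem_union.1 hx with h | h
      · have : i = g1 := by
          by_contra hne
          exact hsec g1 (by simp) x h i hi hne hxi
        rw [this]; exact m1.2.1
      · have : i = g2 := by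
          by_contra hne
          exact hsec g2 (by simp) x h i hi hne hxi
        rw [this]; exact m2.2.1
    · rw [hcard, haf, sum_pair h12, m1.2.2, m2.2.2]
      decide
    · exact hP (tk a I E) E (U_tk_lt haU) hz.tk.sz

end Run7.h683.DOM
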