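import Pool.Agent.Run7.h426.DOM.Iface

/-!
# Piece L5 of project DOM (helper426)
-/

set_option autoImplicit false

namespace Run7.h683.DOM

open Finset Run7.h426.DOM

/-- A vertex of type (0,1) lies in one edge only. -/
theorem only_one {I : Finset ℕ} {E : ℕ → Finset ℕ} (hz : Sz34 I E) {x f : ℕ} (h4 : dg 4 x I E = 0)
    (h3 : dg 3 x I E = 1) (hf : f ∈ I) (hx : x ∈ E f) : ∀ i ∈ I, x ∈ E i → i = f := by
  intro i hi hxi
  have h := deg_eq (v := x) hz
  rw [h4, h3] at h
  exact card_le_one.1 h.le i (mem_filter.2 ⟨hi, hxi⟩) f (mem_filter.2 ⟨hf, hx⟩)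

/-- One vertex of type (0,2), another one private. -/
theorem case_one {I : Finset ℕ} {E : ℕ → Finset ℕ} (hP : HP (U I E).card) (hz : Sz34 I E) {a f : ℕ}
    (hf : f ∈ I) (ha : a ∈ E f) (K : Finset ℕ) (haK : a ∉ K) (hK : ∀ x ∈ K, x ∈ E f)
    (hKo : ∀ x ∈ K, ∀ i ∈ I, x ∈ E i → i = f)
    (hw : 10 ≤ 2 + 2 * K.card + (2 * dg 4 a I E + 3 * dg 3 a I E)) : Sl 1 I E := by
  have haU : a ∈ U I E := mem_biUnion.2 ⟨f, hf, ha⟩
  refine take (s := 0) (g := 1) a K haU haK (fun x hx => mem_biUnion.2 ⟨f, hf, hK x hx⟩) ?_ ?_
    (hP (tk a I E) E (U_tk_lt haU) hz.tk.sz)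
  · intro x hx i hi hxi
    rw [hKo x hx i hi hxi]
    exact ha
  · rw [sum_wt hz]
    omega

/-- A vertex of type (0,1). -/
theorem t_L5 : S_L5 := by
  classical
  intro I E hP hL hz hlin hd h6 hv
  obtain ⟨v, h4, h3⟩ := hv
  obtain ⟨f, hset⟩ := card_eq_one.1 (show (I.filter (fun i => v ∈ E i ∧ (E i).card = 3)).card = 1 from h3)
  have mf : f ∈ I ∧ v ∈ E f ∧ (E f).card = 3 := by
    have : f ∈ I.filter (fun i => v ∈ E i ∧ (E i).card = 3) := by rw [hset]; simp
    exact mem_filter.1 this
  obtain ⟨hf, hvf, hfc⟩ := mf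
  have hvo := only_one hz h4 h3 hf hvf
  have hec : ((E f).erase v).card = 2 := by rw [card_erase_of_mem hvf, hfc]
  obtain ⟨a, b, hab, hE⟩ := card_eq_two.1 hec
  have ha : a ∈ (E f).erase v := by rw [hE]; simp
  have hb : b ∈ (E f).erase v := by rw [hE]; simp
  obtain ⟨hav, haf⟩ := mem_erase.1 ha
  obtain ⟨hbv, hbf⟩ := mem_erase.1 hb
  have hmem : ∀ x ∈ E f, x = v ∨ x = a ∨ x = b := by
    intro x hx
    by_cases hxv : x = v
    · exact Or.inl hxv
    · have : x ∈ (E f).erase v := mem_erase.2 ⟨hxv, hx⟩
      rw [hE] at this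
      right
      simpa using this
  have hpos : ∀ x ∈ E f, 1 ≤ dg 3 x I E := by
    intro x hx
    exact card_pos.2 ⟨f, mem_filter.2 ⟨hf, hx, hfc⟩⟩
  have htype : ∀ x ∈ E f, (dg 4 x I E = 0 ∧ dg 3 x I E = 1) ∨ (dg 4 x I E = 1 ∧ dg 3 x I E = 1) ∨
      (dg 4 x I E = 0 ∧ dg 3 x I E = 2) := by
    intro x hx
    have e1 := hpos x hx
    have e2 := h6 x
    omega
  have hvK : ∀ x ∈ ({v} : Finset ℕ), x ∈ E f := fun x hx => by rw [mem_singleton.1 hx]; exact hvf
  have hvKo : ∀ x ∈ ({v} : Finset ℕ), ∀ i ∈ I, x ∈ E i → i = f := fun x hx => by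
    rw [mem_singleton.1 hx]; exact hvo
  -- one of the two is of type (0,2)
  by_cases ha2 : dg 4 a I E = 0 ∧ dg 3 a I E = 2
  · exact case_one hP hz hf haf {v} (by simpa using hav) hvK hvKo (by rw [ha2.1, ha2.2]; simp)
  by_cases hb2 : dg 4 b I E = 0 ∧ dg 3 b I E = 2
  · exact case_one hP hz hf hbf {v} (by simpa using hbv) hvK hvKo (by rw [hb2.1, hb2.2]; simp)
  rcases htype a haf with ha1 | ha1 | ha1
  · rcases htype b hbf with hb1 | hb1 | hb1
    · -- both of type (0,1)
      have hao := only_one hz ha1.1 ha1.2 hf haf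
      have hbo := only_one hz hb1.1 hb1.2 hf hbf
      have hall : ∀ x ∈ E f, ∀ i ∈ I, x ∈ E i → i = f := by
        intro x hx
        rcases hmem x hx with h | h | h <;> rw [h]
        · exact hvo
        · exact hao
        · exact hbo
      have hvU : v ∈ U I E := mem_biUnion.2 ⟨f, hf, hvf⟩
      have htk : ∀ i ∈ I, i ≠ f → i ∈ tk v I E := fun i hi hne =>
        mem_filter.2 ⟨hi, fun h => hne (hvo i hi h)⟩
      refine take (s := 1) (g := 0) v {a, b} hvU ?_ ?_ ?_ ?_ ?_
      · simp only [mem_insert, mem_singleton, not_or]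
        exact ⟨fun h => hav h.symm, fun h => hbv h.symm⟩
      · intro x hx
        simp only [mem_insert, mem_singleton] at hx
        rcases hx with h | h
        · rw [h]; exact mem_biUnion.2 ⟨f, hf, haf⟩
        · rw [h]; exact mem_biUnion.2 ⟨f, hf, hbf⟩
      · intro x hx i hi hxi
        simp only [mem_insert, mem_singleton] at hx
        have : i = f := by
          rcases hx with h | h
          · rw [h] at hxi; exact hao i hi hxi
          · rw [h] at hxi; exact hbo i hi hxi
        rw [this]; exact hvf
      · rw [sum_wt hz, h4, h3, card_pair hab]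
      · refine hL (tk v I E) E (U_tk_lt hvU) hz.tk hlin.tk ?_
        rcases hd with ⟨i, hi, hc, x, hx, hdeg⟩ | ⟨i, hi, hc, j, hj, hij, x, hx, hxj⟩
        · have hif : i ≠ f := by
            rintro rfl
            omega
          refine Or.inl ⟨i, htk i hi hif, hc, x, hx, ?_⟩
          have hxf : x ∉ E f := fun h => hif (hall x h i hi hx)
          have : (tk v I E).filter (fun j => x ∈ E j) = I.filter (fun j => x ∈ E j) := by
            ext j
            simp only [mem_filter]
            constructor
            · rintro ⟨h1, h2⟩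
              exact ⟨(mem_filter.1 h1).1, h2⟩
            · rintro ⟨h1, h2⟩
              refine ⟨htk j h1 ?_, h2⟩
              rintro rfl
              exact hxf h2
          rw [this]
          exact hdeg
        · have hif : i ≠ f := by
            rintro rfl
            exact hij (hall x hx j hj hxj).symm
          have hjf : j ≠ f := by
            rintro rfl
            exact hij (hall x hxj i hi hx)
          exact Or.inr ⟨i, htk i hi hif, hc, j, htk j hj hjf, hij, x, hx, hxj⟩
    · -- a private, b of type (1,1)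
      have hao := only_one hz ha1.1 ha1.2 hf haf
      refine case_one hP hz hf hbf {v, a} ?_ ?_ ?_ ?_
      · simp only [mem_insert, mem_singleton, not_or]
        exact ⟨hbv, fun h => hab h.symm⟩
      · intro x hx
        simp only [mem_insert, mem_singleton] at hx
        rcases hx with h | h <;> rw [h] <;> assumption
      · intro x hx
        simp only [mem_insert, mem_singleton] at hx
        rcases hx with h | h <;> rw [h] <;> assumption
      · rw [hb1.1, hb1.2, card_pair (fun h => hav h.symm)]
        norm_num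
    · exact absurd hb1 hb2
  · rcases htype b hbf with hb1 | hb1 | hb1
    · have hbo := only_one hz hb1.1 hb1.2 hf hbf
      refine case_one hP hz hf haf {v, b} ?_ ?_ ?_ ?_
      · simp only [mem_insert, mem_singleton, not_or]
        exact ⟨hav, hab⟩
      · intro x hx
        simp only [mem_insert, mem_singleton] at hx
        rcases hx with h | h <;> rw [h] <;> assumption
      · intro x hx
        simp only [mem_insert, mem_singleton] at hx
        rcases hx with h | h <;> rw [h] <;> assumption
      · rw [ha1.1, ha1.2, card_pair (fun h => hbv h.symm)]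
        norm_num
    · -- both of type (1,1)
      have haU : a ∈ U I E := mem_biUnion.2 ⟨f, hf, haf⟩
      obtain ⟨k, hkset⟩ := card_eq_one.1 (show (I.filter (fun i => b ∈ E i ∧ (E i).card = 4)).card = 1 from hb1.1)
      obtain ⟨f', hfset⟩ := card_eq_one.1 (show (I.filter (fun i => b ∈ E i ∧ (E i).card = 3)).card = 1 from hb1.2)
      have mk : k ∈ I ∧ b ∈ E k ∧ (E k).card = 4 := by
        have : k ∈ I.filter (fun i => b ∈ E i ∧ (E i).card = 4) := by rw [hkset]; simp
        exact mem_filter.1 this
      obtain ⟨hk, hbk, hkc⟩ := mk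
      have hff : f = f' := by
        have : f ∈ I.filter (fun i => b ∈ E i ∧ (E i).card = 3) := mem_filter.2 ⟨hf, hbf, hfc⟩
        rw [hfset] at this
        exact mem_singleton.1 this
      have hkf : k ≠ f := by
        rintro rfl
        omega
      have hak : a ∉ E k := fun h => hab (hlin k hk f hf hkf a h haf b hbk hbf)
      have hbfil : (tk a I E).filter (fun i => b ∈ E i) = {k} := by
        ext i
        simp only [mem_filter, mem_singleton, tk]
        constructor
        · rintro ⟨⟨hi, hai⟩, hbi⟩
          rcases hz i hi with hc | hc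
          · exfalso
            have : i ∈ I.filter (fun i => b ∈ E i ∧ (E i).card = 3) := mem_filter.2 ⟨hi, hbi, hc⟩
            rw [hfset] at this
            have h1 := mem_singleton.1 this
            rw [← hff] at h1
            rw [h1] at hai
            exact hai haf
          · have : i ∈ I.filter (fun i => b ∈ E i ∧ (E i).card = 4) := mem_filter.2 ⟨hi, hbi, hc⟩
            rw [hkset] at this
            exact mem_singleton.1 this
        · rintro rfl
          exact ⟨⟨hk, hak⟩, hbk⟩
      have hktk : k ∈ tk a I E := mem_filter.2 ⟨hk, hak⟩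
      have hbU : b ∈ U (tk a I E) E := mem_biUnion.2 ⟨k, hktk, hbk⟩
      refine take (s := 1) (g := 0) a {v} haU (by simpa using hav) (fun x hx => ?_) ?_ ?_ ?_
      · rw [mem_singleton.1 hx]; exact mem_biUnion.2 ⟨f, hf, hvf⟩
      · intro x hx i hi hxi
        rw [hvKo x hx i hi hxi]; exact haf
      · rw [sum_wt hz, ha1.1, ha1.2, card_singleton]
      · refine shrink (s := 0) (g := 1) (c := 0) b hbU ?_ ?_
        · rw [hbfil, sum_singleton, sum_singleton, hkc]
          decide
        · refine hP (tk a I E) (sh b E) (lt_trans (U_sh_lt hbU) (U_tk_lt haU)) ?_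
          intro i hi
          have hc := hz.tk i hi
          show 1 ≤ ((E i).erase b).card ∧ ((E i).erase b).card ≤ 4
          by_cases hbi : b ∈ E i
          · rw [card_erase_of_mem hbi]
            omega
          · rw [erase_eq_of_notMem hbi]
            omega
    · exact absurd hb1 hb2
  · exact absurd ha1 ha2

end Run7.h683.DOM
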